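import Pool.Agent.Q291.HT.Fin

namespace Pool.Agent.Results.MP_af82af_pr.GapLargeD

open Q291.HT

theorem result :
    (∀ θ d : ℕ, 3 ≤ θ → 2 ≤ d → ∃ N : ℕ, ∀ n : ℕ, N ≤ n →
      (∃ p, IsThreshold n d θ 2 p) ∧ (∃ q, IsThreshold n d θ d q) ∧
      ∀ p q : ℝ, IsThreshold n d θ 2 p → IsThreshold n d θ d q →
        2 * ((d : ℝ) - 2) / (θ * (θ + 1)) - (4 * Real.sqrt d + 4) ≤
          Real.log q / Real.log n - Real.log p / Real.log n) ∧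
    (∀ θ d : ℕ, 3 ≤ θ → 4 * (θ ^ 2 + θ + 1) ^ 2 ≤ d → ∃ N : ℕ, ∀ n : ℕ, N ≤ n →
      (∃ p, IsThreshold n d θ 2 p) ∧ (∃ q, IsThreshold n d θ d q) ∧
      ∀ p q : ℝ, IsThreshold n d θ 2 p → IsThreshold n d θ d q →
        1 ≤ Real.log q / Real.log n - Real.log p / Real.log n) := by
  refine ⟨fun θ d hθ hd => gap θ d (by omega) hd, fun θ d hθ hd => ?_⟩
  have hd2 : 2 ≤ d := by
    have : 1 ≤ (θ ^ 2 + θ + 1) ^ 2 := Nat.one_le_pow _ _ (by omega)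
    omega
  obtain ⟨N, hN⟩ := gap θ d (by omega) hd2
  refine ⟨N, fun n hn => ⟨(hN n hn).1, (hN n hn).2.1, fun p q hp hq => ?_⟩⟩
  refine le_trans ?_ ((hN n hn).2.2 p q hp hq)
  have hdR : 4 * ((θ : ℝ) ^ 2 + θ + 1) ^ 2 ≤ d := by exact_mod_cast hd
  have hθR : (3:ℝ) ≤ θ := by exact_mod_cast hθ
  obtain ⟨s, hs⟩ : ∃ s, s = Real.sqrt d := ⟨_, rfl⟩
  have hd0 : (0:ℝ) ≤ d := by positivity
  have hsq : s ^ 2 = d := by rw [hs]; exact Real.sq_sqrt hd0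
  have hs0 : 0 ≤ s := by rw [hs]; positivity
  have hM : 2 * ((θ : ℝ) ^ 2 + θ + 1) ≤ s := by
    rw [hs]
    apply Real.le_sqrt_of_sq_le
    nlinarith
  rw [← hs, ← hsq]
  have hpos : 0 < (θ : ℝ) * (θ + 1) := by positivity
  rw [le_sub_iff_add_le, le_div_iff₀ hpos]
  obtain ⟨M, hMdef⟩ : ∃ M : ℝ, M = (θ : ℝ) * (θ + 1) := ⟨_, rfl⟩
  have hM' : 2 * M + 2 ≤ s := by rw [hMdef]; nlinarith
  have hMpos : 12 ≤ M := by rw [hMdef]; nlinarith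
  rw [← hMdef]
  nlinarith

end Pool.Agent.Results.MP_af82af_pr.GapLargeD
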